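import Pool.Agent.Lib.PLH.C3
import Pool.Agent.Lib.PLH.C4
import Pool.Agent.Lib.PLH.C5

/-!
# The p-Laplacian system on the first Heisenberg group: the gradient is Holder continuous

MP_55b5e8_an, Q1 for `n = 1`, all `1 < p < ∞` and all `N`. Points of the first Heisenberg group are
`z = (x, (y, t))`; `X = ∂ₓ - (y/2) ∂ₜ`, `Y = ∂_y + (x/2) ∂ₜ`.
-/

open MeasureTheory Set Filter Topology
open scoped ContDiff ENNReal

namespace Pool.Agent.Results.MP_55b5e8_an.FirstHeisenberg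

open PLH

/-- `X φ = ∂ₓφ - (y/2) ∂ₜφ` at the point `z = (x,(y,t))`. -/
noncomputable def Xd {F : Type*} [NormedAddCommGroup F] [NormedSpace ℝ F]
    (φ : ℝ × ℝ × ℝ → F) (z : ℝ × ℝ × ℝ) : F :=
  fderiv ℝ φ z (1, 0, -z.2.1 / 2)

/-- `Y φ = ∂_yφ + (x/2) ∂ₜφ` at the point `z = (x,(y,t))`. -/
noncomputable def Yd {F : Type*} [NormedAddCommGroup F] [NormedSpace ℝ F]
    (φ : ℝ × ℝ × ℝ → F) (z : ℝ × ℝ × ℝ) : F :=
  fderiv ℝ φ z (0, 1, z.1 / 2)

/-- `u` is a weak solution of the `p`-Laplacian system in the open set `Ω` of the first Heisenberg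
group, with weak horizontal derivatives `ux = X u`, `uy = Y u`, all locally in `L^p`. -/
structure WeakSolution (N : ℕ) (p : ℝ) (Ω : Set (ℝ × ℝ × ℝ))
    (u ux uy : ℝ × ℝ × ℝ → EuclideanSpace ℝ (Fin N)) : Prop where
  u_Lp : ∀ K : Set (ℝ × ℝ × ℝ), IsCompact K → K ⊆ Ω →
    MemLp u (ENNReal.ofReal p) (volume.restrict K)
  ux_Lp : ∀ K : Set (ℝ × ℝ × ℝ), IsCompact K → K ⊆ Ω →
    MemLp ux (ENNReal.ofReal p) (volume.restrict K)
  uy_Lp : ∀ K : Set (ℝ × ℝ × ℝ), IsCompact K → K ⊆ Ω →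
    MemLp uy (ENNReal.ofReal p) (volume.restrict K)
  ux_eq : ∀ φ : ℝ × ℝ × ℝ → ℝ, ContDiff ℝ ∞ φ → HasCompactSupport φ → tsupport φ ⊆ Ω →
    ∫ z, Xd φ z • u z = - ∫ z, φ z • ux z
  uy_eq : ∀ φ : ℝ × ℝ × ℝ → ℝ, ContDiff ℝ ∞ φ → HasCompactSupport φ → tsupport φ ⊆ Ω →
    ∫ z, Yd φ z • u z = - ∫ z, φ z • uy z
  eq : ∀ φ : ℝ × ℝ × ℝ → EuclideanSpace ℝ (Fin N), ContDiff ℝ ∞ φ → HasCompactSupport φ →
    tsupport φ ⊆ Ω →
    ∫ z, Real.sqrt (‖ux z‖ ^ 2 + ‖uy z‖ ^ 2) ^ (p - 2) *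
      (inner ℝ (ux z) (Xd φ z) + inner ℝ (uy z) (Yd φ z)) = 0

/-- The lengths of the absolutely continuous horizontal curves from `z` to `w`. -/
def lengths (z w : ℝ × ℝ × ℝ) : Set ℝ :=
  {ℓ | ∃ a b x y t : ℝ → ℝ, IntervalIntegrable a volume 0 1 ∧ IntervalIntegrable b volume 0 1 ∧
    (∀ s ∈ Icc (0 : ℝ) 1, x s = z.1 + ∫ r in (0 : ℝ)..s, a r) ∧
    (∀ s ∈ Icc (0 : ℝ) 1, y s = z.2.1 + ∫ r in (0 : ℝ)..s, b r) ∧
    (∀ s ∈ Icc (0 : ℝ) 1, t s = z.2.2 + ∫ r in (0 : ℝ)..s, (x r * b r - y r * a r) / 2) ∧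
    w = (x 1, y 1, t 1) ∧ ℓ = ∫ r in (0 : ℝ)..1, Real.sqrt (a r ^ 2 + b r ^ 2)}

/-- The Carnot-Caratheodory distance (an infimum of lengths, in `[0,∞]`). -/
noncomputable def ccDist (z w : ℝ × ℝ × ℝ) : ℝ≥0∞ := ⨅ ℓ ∈ lengths z w, ENNReal.ofReal ℓ

private theorem memLp_toV2 {W : Type*} [NormedAddCommGroup W] [InnerProductSpace ℝ W]
    {μ : Measure Pt} {q : ℝ≥0∞} {f g : Pt → W} (hf : MemLp f q μ) (hg : MemLp g q μ) :
    MemLp (fun z => (WithLp.toLp 2 ![f z, g z] : V2 W)) q μ := by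
  let L0 : W →L[ℝ] V2 W := (PiLp.continuousLinearEquiv 2 ℝ (fun _ : Fin 2 => W)).symm.toContinuousLinearMap.comp
    (ContinuousLinearMap.single ℝ (fun _ : Fin 2 => W) 0)
  let L1 : W →L[ℝ] V2 W := (PiLp.continuousLinearEquiv 2 ℝ (fun _ : Fin 2 => W)).symm.toContinuousLinearMap.comp
    (ContinuousLinearMap.single ℝ (fun _ : Fin 2 => W) 1)
  have h0 : MemLp (fun z => L0 (f z)) q μ := L0.comp_memLp' hf
  have h1 : MemLp (fun z => L1 (g z)) q μ := L1.comp_memLp' hg
  have h := h0.add h1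
  convert h using 1
  funext z
  ext i
  fin_cases i <;> simp [L0, L1, ContinuousLinearMap.single]

private theorem norm_toV2 {W : Type*} [NormedAddCommGroup W] [InnerProductSpace ℝ W] (a b : W) :
    ‖(WithLp.toLp 2 ![a, b] : V2 W)‖ = Real.sqrt (‖a‖ ^ 2 + ‖b‖ ^ 2) := by
  rw [PiLp.norm_eq_of_L2]
  simp [Fin.sum_univ_two]

private theorem coord_le {W : Type*} [NormedAddCommGroup W] [InnerProductSpace ℝ W] (x : V2 W)
    (i : Fin 2) : ‖x i‖ ≤ ‖x‖ := PiLp.norm_apply_le x i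

private theorem locInt_of {W : Type*} [NormedAddCommGroup W] {Ω : Set Pt} (hΩ : IsOpen Ω)
    {q : ℝ≥0∞} (hq : 1 ≤ q) {f : Pt → W}
    (h : ∀ K : Set Pt, IsCompact K → K ⊆ Ω → MemLp f q (volume.restrict K)) :
    LocallyIntegrableOn f Ω := by
  rw [locallyIntegrableOn_iff hΩ.isLocallyClosed]
  intro K hKΩ hK
  have : IsFiniteMeasure ((volume : Measure Pt).restrict K) :=
    ⟨by rw [Measure.restrict_apply_univ]; exact hK.measure_lt_top⟩
  exact (h K hK hKΩ).integrable hq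

private theorem inner_int {N : ℕ} {Ω : Set Pt} (hΩ : IsOpen Ω) {p : ℝ} (hp : 1 < p)
    {u ux uy : Pt → EuclideanSpace ℝ (Fin N)} (h : WeakSolution N p Ω u ux uy) :
    Sol0 Ω (fun z => A (fun s => s ^ (p - 2))
      (WithLp.toLp 2 ![ux z, uy z] : V2 (EuclideanSpace ℝ (Fin N)))) := by
  intro φ hφ
  set ξ : Pt → V2 (EuclideanSpace ℝ (Fin N)) := fun z => WithLp.toLp 2 ![ux z, uy z] with hξ
  have hm : -1 < p - 2 := by linarith
  -- local integrability of the flux
  have hflux : LocallyIntegrableOn (fun z => A (fun s : ℝ => s ^ (p - 2)) (ξ z)) Ω := by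
    have hq : (1 : ℝ≥0∞) ≤ ENNReal.ofReal ((p - 2 + 2) / (p - 2 + 1)) := by
      rw [← ENNReal.ofReal_one]
      apply ENNReal.ofReal_le_ofReal
      rw [le_div_iff₀ (by linarith)]
      linarith
    refine locInt_of hΩ hq ?_
    intro K hK hKΩ
    refine memLp_A0 hm ?_
    have e : p - 2 + 2 = p := by ring
    rw [e]
    exact memLp_toV2 (h.ux_Lp K hK hKΩ) (h.uy_Lp K hK hKΩ)
  have hK : IsCompact (tsupport φ) := hφ.cpt
  have hint : IntegrableOn (fun z => A (fun s : ℝ => s ^ (p - 2)) (ξ z)) (tsupport φ) :=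
    hflux.integrableOn_compact_subset hφ.supp hK
  have key : ∀ (F : VF) (i : Fin 2), Integrable
      (fun z => der F φ z • (A (fun s : ℝ => s ^ (p - 2)) (ξ z)) i) := by
    intro F i
    have hd : Continuous (der F φ) := (F.smooth_der hφ.smooth).continuous
    have h1 : IntegrableOn (fun z => (A (fun s : ℝ => s ^ (p - 2)) (ξ z)) i) (tsupport φ) := by
      refine Integrable.mono' hint.norm ?_ ?_
      · exact (PiLp.continuous_apply 2 (fun _ : Fin 2 => EuclideanSpace ℝ (Fin N)) i).comp_aestronglyMeasurable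
          hint.aestronglyMeasurable
      · exact Filter.Eventually.of_forall (fun z => coord_le _ i)
    have h2 : IntegrableOn (fun z => der F φ z • (A (fun s : ℝ => s ^ (p - 2)) (ξ z)) i)
        (tsupport φ) := by
      exact h1.continuousOn_smul hd.continuousOn hK
    rw [← integrableOn_iff_integrable_of_support_subset (s := tsupport φ)]
    · exact h2
    · intro z hz
      by_contra hzn
      apply hz
      have : der F φ z = 0 := by
        have hz' := (hφ.der F)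
        unfold der
        rw [fderiv_of_notMem_tsupport ℝ hzn]
        rfl
      simp [this]
  rw [integral_add (key vX 0) (key vY 1)]
  apply ext_inner_left ℝ
  intro e
  rw [inner_add_right, inner_zero_right, ← integral_inner (key vX 0) e,
    ← integral_inner (key vY 1) e, ← integral_add ((key vX 0).const_inner e)
    ((key vY 1).const_inner e)]
  have hs : ContDiff ℝ ∞ (fun z => φ z • e) := hφ.smooth.smul contDiff_const
  have hts : tsupport (fun z => φ z • e) ⊆ tsupport φ := by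
    apply closure_mono
    intro z hz hz0
    apply hz
    simp [hz0]
  have hcs : HasCompactSupport (fun z => φ z • e) :=
    hφ.cpt.of_isClosed_subset (isClosed_tsupport _) hts
  have hX : ∀ z, Xd (fun w => φ w • e) z = der vX φ z • e := by
    intro z
    unfold Xd der
    rw [fderiv_smul_const ((hφ.smooth.differentiable (by simp)) z)]
    simp [vX, VF.v]
    ring_nf
  have hY : ∀ z, Yd (fun w => φ w • e) z = der vY φ z • e := by
    intro z
    unfold Yd der
    rw [fderiv_smul_const ((hφ.smooth.differentiable (by simp)) z)]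
    simp [vY, VF.v]
    ring_nf
  rw [← h.eq (fun z => φ z • e) hs hcs (hts.trans hφ.supp)]
  apply integral_congr_ae
  filter_upwards with z
  rw [hX, hY]
  unfold A
  simp only [hξ, norm_toV2]
  simp [inner_smul_right, real_inner_comm]
  ring

/-- For every `1 < p < ∞` and every `N` there is `α ∈ (0,1)` such that for every weak solution `u` of
the `p`-Laplacian system in an open set of the first Heisenberg group the horizontal gradient has a
representative which is Holder continuous with exponent `α`, with respect to the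
Carnot-Caratheodory distance, on every compact subset. -/
theorem result (N : ℕ) (p : ℝ) (hp : 1 < p) :
    ∃ α : ℝ, 0 < α ∧ α < 1 ∧ ∀ (Ω : Set (ℝ × ℝ × ℝ)), IsOpen Ω →
      ∀ u ux uy : ℝ × ℝ × ℝ → EuclideanSpace ℝ (Fin N), WeakSolution N p Ω u ux uy →
      ∃ vx vy : ℝ × ℝ × ℝ → EuclideanSpace ℝ (Fin N),
        (∀ᵐ z ∂(volume.restrict Ω), ux z = vx z) ∧ (∀ᵐ z ∂(volume.restrict Ω), uy z = vy z) ∧
        ∀ K : Set (ℝ × ℝ × ℝ), IsCompact K → K ⊆ Ω → ∃ C : NNReal, ∀ z ∈ K, ∀ w ∈ K,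
          ENNReal.ofReal ‖vx z - vx w‖ ≤ C * ccDist z w ^ α ∧
          ENNReal.ofReal ‖vy z - vy w‖ ≤ C * ccDist z w ^ α := by
  have hm : -1 < p - 2 := by linarith
  obtain ⟨al, h0, h1, hloc⟩ := local_holder (EuclideanSpace ℝ (Fin N)) hm
  refine ⟨al, h0, h1, ?_⟩
  intro Ω hΩ u ux uy h
  have e2 : p - 2 + 2 = p := by ring
  rw [e2] at hloc
  have hq : (1 : ℝ≥0∞) ≤ ENNReal.ofReal p := by
    rw [← ENNReal.ofReal_one]
    exact ENNReal.ofReal_le_ofReal hp.le
  set ξ : Pt → V2 (EuclideanSpace ℝ (Fin N)) := fun z => WithLp.toLp 2 ![ux z, uy z] with hξ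
  have hglue := glue h0 hΩ (ξ := ξ) (hloc Ω hΩ u ξ h.u_Lp
    (fun K hK hKΩ => memLp_toV2 (h.ux_Lp K hK hKΩ) (h.uy_Lp K hK hKΩ))
    ⟨locInt_of hΩ hq h.u_Lp, locInt_of hΩ hq h.ux_Lp, ?_⟩
    ⟨locInt_of hΩ hq h.u_Lp, locInt_of hΩ hq h.uy_Lp, ?_⟩ (inner_int hΩ hp h))
  · obtain ⟨η, hae, hK⟩ := hglue
    refine ⟨fun z => η z 0, fun z => η z 1, ?_, ?_, ?_⟩
    · filter_upwards [hae] with z hz
      rw [← hz]
      simp [hξ]
    · filter_upwards [hae] with z hz
      rw [← hz]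
      simp [hξ]
    · intro K hKc hKΩ
      obtain ⟨C, hC, hCK⟩ := hK K hKc hKΩ
      have main : ∀ z ∈ K, ∀ w ∈ K, ENNReal.ofReal ‖η z - η w‖ ≤
          (Real.toNNReal (C + 1) : NNReal) * ccDist z w ^ al := by
        intro z hz w hw
        have hgd : ENNReal.ofReal (gd z w) ≤ ccDist z w := by
          unfold ccDist
          refine le_iInf₂ ?_
          intro ℓ hℓ
          exact ENNReal.ofReal_le_ofReal (gd_le_len hℓ)
        calc ENNReal.ofReal ‖η z - η w‖ ≤ ENNReal.ofReal ((C + 1) * gd z w ^ al) := by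
              apply ENNReal.ofReal_le_ofReal
              refine (hCK z hz w hw).trans ?_
              have : 0 ≤ gd z w ^ al := Real.rpow_nonneg (gd_nonneg z w) _
              nlinarith
          _ = (Real.toNNReal (C + 1) : NNReal) * ENNReal.ofReal (gd z w) ^ al := by
              rw [ENNReal.ofReal_mul (by linarith), ENNReal.ofReal_rpow_of_nonneg (gd_nonneg z w) h0.le]
              rfl
          _ ≤ _ := by
              gcongr
      refine ⟨Real.toNNReal (C + 1), ?_⟩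
      intro z hz w hw
      refine ⟨(ENNReal.ofReal_le_ofReal ?_).trans (main z hz w hw),
        (ENNReal.ofReal_le_ofReal ?_).trans (main z hz w hw)⟩
      · exact coord_le (η z - η w) 0
      · exact coord_le (η z - η w) 1
  · intro φ hφ
    have := h.ux_eq φ hφ.smooth hφ.cpt hφ.supp
    have e0 : ∀ z : Pt, vX.v z = (1, 0, -z.2.1 / 2) := by
      intro z
      simp [vX, VF.v]
      ring
    simpa [Xd, der, e0, hξ] using this
  · intro φ hφ
    have := h.uy_eq φ hφ.smooth hφ.cpt hφ.supp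
    have e0 : ∀ z : Pt, vY.v z = (0, 1, z.1 / 2) := by
      intro z
      simp [vY, VF.v]
      ring
    simpa [Yd, der, e0, hξ] using this

end Pool.Agent.Results.MP_55b5e8_an.FirstHeisenberg
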